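import Pool.Agent.Helper75.OL.JUMP

/-!
# Blueprint OL: part COMM
-/

set_option autoImplicit false

namespace Pool.Agent.Helper75.OL

open Pool.Agent.Helper40.OL

lemma d_zero {g : E} (hg : PL g) {u v : ℝ} (hid : ∀ x : ℝ, u < x → x < v → g.f x = x) {s : ℝ}
    (h1 : u < s) (h2 : s < v) : g.d s = 0 := by
  obtain ⟨ρ, l, hd, hR, hL⟩ := PL.local hg s
  have hid' : ∀ x : ℝ, u < x → x < v → g.f⁻¹ x = x := fun x h3 h4 => inv_fix (hid x h3 h4)
  have hR' : RS (g.f⁻¹ : Equiv.Perm ℝ) s 0 := by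
    refine ⟨(v - s) / 2, by linarith, fun t h3 h4 => ?_⟩
    rw [hid' t (by linarith) (by linarith), hid' s h1 h2]; simp
  have hL' : LS (g.f⁻¹ : Equiv.Perm ℝ) s 0 := by
    refine ⟨(s - u) / 2, by linarith, fun t h3 h4 => ?_⟩
    rw [hid' t (by linarith) (by linarith), hid' s h1 h2]; simp
  rw [hd, hR.unique hR', hL.unique hL', sub_self]

lemma Ioo_inv {φ : Equiv.Perm ℝ} (h : StrictMono φ) {u v : ℝ} (hu : φ u = u) (hv : φ v = v) (s : ℝ) :
    φ⁻¹ s ∈ Set.Ioo u v ↔ s ∈ Set.Ioo u v := by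
  have hm := inv_strictMono h
  have hu' := inv_fix hu
  have hv' := inv_fix hv
  constructor
  · rintro ⟨h1, h2⟩
    have h3 := h h1
    have h4 := h h2
    have e : φ (φ⁻¹ s) = s := Equiv.apply_symm_apply φ s
    rw [e] at h3 h4
    rw [hu] at h3
    rw [hv] at h4
    exact ⟨h3, h4⟩
  · rintro ⟨h1, h2⟩
    have h3 := hm h1
    have h4 := hm h2
    rw [hu'] at h3
    rw [hv'] at h4
    exact ⟨h3, h4⟩

lemma finsum_prod_mul (α β : ℝ → ℤ) (hα : (Function.support α).Finite) (hβ : (Function.support β).Finite) :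
    ∑ᶠ x : ℝ × ℝ, α x.1 * β x.2 = (∑ᶠ s, α s) * ∑ᶠ t, β t := by
  classical
  rw [finsum_eq_sum_of_support_subset (f := fun x : ℝ × ℝ => α x.1 * β x.2)
    (s := hα.toFinset ×ˢ hβ.toFinset), finsum_eq_sum_of_support_subset (f := α) (s := hα.toFinset),
    finsum_eq_sum_of_support_subset (f := β) (s := hβ.toFinset), Finset.sum_mul_sum,
    Finset.sum_product]
  · simp
  · simp
  · intro x hx
    simp only [Function.mem_support, ne_eq, mul_eq_zero, not_or] at hx
    simp [hx.1, hx.2]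

/-- Part COMM. -/
theorem comm_thm : S_COMM := by
  classical
  intro a b ha hb ha1 hb1 hdis hab
  have exa : ∃ x, a.f x ≠ x := by
    by_contra hcon
    push Not at hcon
    exact ha1 (Equiv.ext hcon)
  have exb : ∃ x, b.f x ≠ x := by
    by_contra hcon
    push Not at hcon
    exact hb1 (Equiv.ext hcon)
  obtain ⟨x, hx⟩ := exa
  obtain ⟨y, hy⟩ := exb
  obtain ⟨p, q, hp1, hq1, hp, hq, hpq⟩ := comp_exists ha.1 ha.2.1 hx
  obtain ⟨u, v, hu1, hv1, hu, hv, huv⟩ := comp_exists hb.1 hb.2.1 hy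
  have aid : ∀ s, u < s → s < v → a.f s = s := fun s h1 h2 => (hdis s).resolve_right (huv s h1 h2)
  have bid : ∀ s, p < s → s < q → b.f s = s := fun s h1 h2 => (hdis s).resolve_left (hpq s h1 h2)
  have aid' : ∀ s, u < s → s < v → a.f⁻¹ s = s := fun s h1 h2 => inv_fix (aid s h1 h2)
  have bid' : ∀ s, p < s → s < q → b.f⁻¹ s = s := fun s h1 h2 => inv_fix (bid s h1 h2)
  have jb := jump_thm b hb u v (hu1.trans hv1) hu hv huv
  have ja := jump_thm a ha p q (hp1.trans hq1) hp hq hpq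
  set f₁ : ℝ × ℝ → ℤ := fun x => if x.1 ∈ Set.Ioo u v ∧ x.2 ∈ Set.Ioo p q then a.m x.1 x.2 else 0 with hf₁
  set f₂ : ℝ × ℝ → ℤ := fun x => if x.1 ∈ Set.Ioo u v ∧ x.2 ∈ Set.Ioo p q then b.m x.1 x.2 else 0 with hf₂
  set e₁ : ℝ × ℝ ≃ ℝ × ℝ := Equiv.prodCongr b.f⁻¹ (Equiv.refl ℝ) with he₁
  set e₂ : ℝ × ℝ ≃ ℝ × ℝ := Equiv.prodCongr (Equiv.refl ℝ) a.f⁻¹ with he₂
  set α : ℝ → ℤ := (Set.Ioo u v).indicator b.d with hα
  set β : ℝ → ℤ := (Set.Ioo p q).indicator a.d with hβ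
  have fin1 : (Function.support f₁).Finite := by
    refine ha.2.2.2.1.subset fun x hx => ?_
    rw [Function.mem_support, hf₁] at hx
    by_contra hcon
    have hcon' : a.m x.1 x.2 = 0 := by simpa using hcon
    apply hx
    show (if _ then a.m x.1 x.2 else 0) = 0
    rw [hcon', ite_self]
  have fin2 : (Function.support f₂).Finite := by
    refine hb.2.2.2.1.subset fun x hx => ?_
    rw [Function.mem_support, hf₂] at hx
    by_contra hcon
    have hcon' : b.m x.1 x.2 = 0 := by simpa using hcon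
    apply hx
    show (if _ then b.m x.1 x.2 else 0) = 0
    rw [hcon', ite_self]
  have fin1' : (Function.support fun x => f₁ (e₁ x)).Finite := by
    have : (Function.support fun x => f₁ (e₁ x)) = e₁ ⁻¹' Function.support f₁ := by
      ext x; simp [Function.mem_support]
    rw [this]
    exact fin1.preimage e₁.injective.injOn
  have fin2' : (Function.support fun x => f₂ (e₂ x)).Finite := by
    have : (Function.support fun x => f₂ (e₂ x)) = e₂ ⁻¹' Function.support f₂ := by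
      ext x; simp [Function.mem_support]
    rw [this]
    exact fin2.preimage e₂.injective.injOn
  have finα : (Function.support α).Finite := by
    refine hb.2.2.1.subset fun s hs => ?_
    rw [Function.mem_support, hα, Set.indicator_apply_ne_zero] at hs
    exact hs.2
  have finβ : (Function.support β).Finite := by
    refine ha.2.2.1.subset fun s hs => ?_
    rw [Function.mem_support, hβ, Set.indicator_apply_ne_zero] at hs
    exact hs.2
  have key : ∀ z : ℝ × ℝ, (f₁ z - f₁ (e₁ z)) + (f₂ (e₂ z) - f₂ z) = α z.1 * β z.2 := by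
    rintro ⟨s, t⟩
    have i1 : (b.f⁻¹ s ∈ Set.Ioo u v) ↔ s ∈ Set.Ioo u v := Ioo_inv hb.1 hu hv s
    have i2 : (a.f⁻¹ t ∈ Set.Ioo p q) ↔ t ∈ Set.Ioo p q := Ioo_inv ha.1 hp hq t
    by_cases hst : s ∈ Set.Ioo u v ∧ t ∈ Set.Ioo p q
    · obtain ⟨hs, ht⟩ := hst
      have c1 : f₁ (s, t) = a.m s t := if_pos ⟨hs, ht⟩
      have c2 : f₁ (e₁ (s, t)) = a.m (b.f⁻¹ s) t := if_pos ⟨i1.2 hs, ht⟩
      have c3 : f₂ (e₂ (s, t)) = b.m s (a.f⁻¹ t) := if_pos ⟨hs, i2.2 ht⟩
      have c4 : f₂ (s, t) = b.m s t := if_pos ⟨hs, ht⟩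
      have c5 : α s = b.d s := Set.indicator_of_mem hs _
      have c6 : β t = a.d t := Set.indicator_of_mem ht _
      have hm : (a * b).m s t = (b * a).m s t := by rw [hab]
      rw [E.mul_m, E.mul_m, aid' s hs.1 hs.2, bid' t ht.1 ht.2, d_zero ha aid hs.1 hs.2] at hm
      show f₁ (s, t) - f₁ (e₁ (s, t)) + (f₂ (e₂ (s, t)) - f₂ (s, t)) = α s * β t
      rw [c1, c2, c3, c4, c5, c6]
      linarith
    · have c1 : f₁ (s, t) = 0 := if_neg hst
      have c2 : f₁ (e₁ (s, t)) = 0 := if_neg fun h => hst ⟨i1.1 h.1, h.2⟩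
      have c3 : f₂ (e₂ (s, t)) = 0 := if_neg fun h => hst ⟨h.1, i2.1 h.2⟩
      have c4 : f₂ (s, t) = 0 := if_neg hst
      have c5 : α s * β t = 0 := by
        by_cases hs : s ∈ Set.Ioo u v
        · have : β t = 0 := Set.indicator_of_notMem (fun ht => hst ⟨hs, ht⟩) _
          rw [this, mul_zero]
        · have : α s = 0 := Set.indicator_of_notMem hs _
          rw [this, zero_mul]
      show f₁ (s, t) - f₁ (e₁ (s, t)) + (f₂ (e₂ (s, t)) - f₂ (s, t)) = α s * β t
      rw [c1, c2, c3, c4, c5]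
      simp
  have s1 : ∑ᶠ z, (f₁ z - f₁ (e₁ z)) = 0 := by
    rw [finsum_sub_distrib fin1 fin1', finsum_comp_equiv e₁, sub_self]
  have s2 : ∑ᶠ z, (f₂ (e₂ z) - f₂ z) = 0 := by
    rw [finsum_sub_distrib fin2' fin2, finsum_comp_equiv e₂, sub_self]
  have s3 : ∑ᶠ z : ℝ × ℝ, α z.1 * β z.2 = 0 := by
    rw [← finsum_congr key, finsum_add_distrib, s1, s2, add_zero]
    · exact (fin1.union fin1').subset (Function.support_sub _ _)
    · exact (fin2'.union fin2).subset (Function.support_sub _ _)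
  rw [finsum_prod_mul α β finα finβ, hα, hβ, ← finsum_mem_def, ← finsum_mem_def] at s3
  rcases mul_eq_zero.1 s3 with h | h
  · exact jb h
  · exact ja h

end Pool.Agent.Helper75.OL
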