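import Pool.Agent.Helper75.OL.Geo

/-!
# Blueprint OL: part DISJ
-/

set_option autoImplicit false

namespace Pool.Agent.Helper75.OL

open Pool.Agent.Helper40.OL

lemma LS.comp {φ ψ : ℝ → ℝ} {s : ℝ} {l l' : ℤ} (h : LS φ s l) (h' : LS ψ s l') (hφ : φ s = s)
    (hψ : ψ s = s) : LS (fun x => φ (ψ x)) s (l + l') := by
  obtain ⟨ε, hε, h1⟩ := h
  obtain ⟨ε', hε', h2⟩ := h'
  have hp : (0 : ℝ) < 2 ^ l' := zpow_pos (by norm_num) _
  refine ⟨min ε' (ε / 2 ^ l'), lt_min hε' (div_pos hε hp), fun t ht1 ht2 => ?_⟩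
  have e1 : ψ t = s + 2 ^ l' * (t - s) := by
    rw [h2 t (by linarith [min_le_left ε' (ε / 2 ^ l')]) ht2, hψ]
  have h3 : (2 : ℝ) ^ l' * (s - t) ≤ ε := by
    have h4 : s - t ≤ ε / 2 ^ l' := by linarith [min_le_right ε' (ε / 2 ^ l')]
    calc (2 : ℝ) ^ l' * (s - t) ≤ 2 ^ l' * (ε / 2 ^ l') := mul_le_mul_of_nonneg_left h4 hp.le
      _ = ε := by field_simp
  have h5 : 0 ≤ (2 : ℝ) ^ l' * (s - t) := mul_nonneg hp.le (by linarith)
  have e2 := h1 (ψ t) (by rw [e1]; linarith) (by rw [e1]; linarith)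
  show φ (ψ t) = φ (ψ s) + _
  rw [e2, hψ, hφ, e1, zpow_add₀ (by norm_num : (2 : ℝ) ≠ 0)]
  ring

lemma LS.inv {φ : Equiv.Perm ℝ} {s : ℝ} {l : ℤ} (h : LS φ s l) (hφ : φ s = s) :
    LS (φ⁻¹ : Equiv.Perm ℝ) s (-l) := by
  obtain ⟨ε, hε, h1⟩ := h
  have hp : (0 : ℝ) < 2 ^ l := zpow_pos (by norm_num) _
  have hp' : (0 : ℝ) < 2 ^ (-l) := zpow_pos (by norm_num) _
  have hpp : (2 : ℝ) ^ l * 2 ^ (-l) = 1 := by
    rw [← zpow_add₀ (by norm_num : (2 : ℝ) ≠ 0)]; simp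
  refine ⟨2 ^ l * ε, mul_pos hp hε, fun t ht1 ht2 => ?_⟩
  have h2 : (2 : ℝ) ^ (-l) * (s - t) ≤ ε := by
    have : s - t ≤ 2 ^ l * ε := by linarith
    calc (2 : ℝ) ^ (-l) * (s - t) ≤ 2 ^ (-l) * (2 ^ l * ε) := mul_le_mul_of_nonneg_left this hp'.le
      _ = (2 ^ l * 2 ^ (-l)) * ε := by ring
      _ = ε := by rw [hpp, one_mul]
  have h3 : 0 ≤ (2 : ℝ) ^ (-l) * (s - t) := mul_nonneg hp'.le (by linarith)
  have e := h1 (s + 2 ^ (-l) * (t - s)) (by linarith) (by linarith)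
  have e' : φ (s + 2 ^ (-l) * (t - s)) = t := by
    rw [e, hφ]
    have : (2 : ℝ) ^ l * (s + 2 ^ (-l) * (t - s) - s) = (2 ^ l * 2 ^ (-l)) * (t - s) := by ring
    rw [this, hpp]; ring
  have hs : φ⁻¹ s = s := by rw [Equiv.Perm.inv_eq_iff_eq]; exact hφ.symm
  rw [hs, Equiv.Perm.inv_eq_iff_eq]
  exact e'.symm

lemma pow_strictMono {φ : Equiv.Perm ℝ} (h : StrictMono φ) (n : ℕ) :
    StrictMono (φ ^ n : Equiv.Perm ℝ) := by
  induction n with
  | zero => intro a b hab; simpa using hab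
  | succ n ih =>
    intro a b hab
    rw [pow_succ', Equiv.Perm.mul_apply, Equiv.Perm.mul_apply]
    exact h (ih hab)

lemma comm_apply {φ ψ : Equiv.Perm ℝ} (h : Commute φ ψ) (x : ℝ) : φ (ψ x) = ψ (φ x) := by
  have := congrArg (fun e : Equiv.Perm ℝ => e x) h.eq
  simpa using this

lemma not_gt {φ : Equiv.Perm ℝ} (h : StrictMono φ) (h' : ∀ s : ℝ, s ≤ 0 ∨ 1 ≤ s → φ s = s) {b : E}
    (hb : PL b) (hc : Commute φ b.f) {u v : ℝ} (huv : u < v) (hu : b.f u = u)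
    (hnf : ∀ x : ℝ, u < x → x < v → b.f x ≠ x) : ¬ u < φ u := by
  intro hlt
  obtain ⟨w, -, -, -, hw1, hw2⟩ := orbit_sup h hlt (v := max 1 (u + 1))
    (lt_of_lt_of_le (by linarith) (le_max_right _ _)) (h' _ (Or.inr (le_max_left _ _)))
  obtain ⟨ρ, l, -, -, ε, hε, hl⟩ := PL.local hb w
  obtain ⟨n, hn⟩ := hw2 ε hε
  have hcn : ∀ (k : ℕ) (x : ℝ), b.f ((φ ^ k) x) = (φ ^ k) (b.f x) := fun k x =>
    (comm_apply (hc.pow_left k) x).symm
  have hfix : ∀ k : ℕ, b.f⁻¹ ((φ ^ k) u) = (φ ^ k) u := by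
    intro k
    rw [Equiv.Perm.inv_eq_iff_eq, hcn, hu]
  have hmono : (φ ^ n) u < (φ ^ (n + 1)) u := by
    rw [pow_succ, Equiv.Perm.mul_apply]
    exact pow_strictMono h n hlt
  have e1 := hl ((φ ^ n) u) hn.le (hw1 n).le
  have e2 := hl ((φ ^ (n + 1)) u) (by linarith) (hw1 (n + 1)).le
  rw [hfix] at e1 e2
  have hone : (2 : ℝ) ^ l = 1 := by
    have h3 : ((φ ^ (n + 1)) u - (φ ^ n) u) * ((2 : ℝ) ^ l - 1) = 0 := by linarith
    rcases mul_eq_zero.1 h3 with h4 | h4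
    · linarith
    · linarith
  rw [hone] at e1
  have hww : b.f⁻¹ w = w := by linarith
  have hφu : v ≤ φ u := by
    by_contra hcon
    push Not at hcon
    have h5 := hcn 1 u
    rw [pow_one, hu] at h5
    exact hnf (φ u) hlt hcon h5
  set m := (u + v) / 2 with hm
  have hm1 : (φ ^ n) u < (φ ^ n) m := pow_strictMono h n (by rw [hm]; linarith)
  have hm2 : (φ ^ n) m < (φ ^ (n + 1)) u := by
    rw [pow_succ, Equiv.Perm.mul_apply]
    exact pow_strictMono h n (by rw [hm]; linarith)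
  have e3 := hl ((φ ^ n) m) (by linarith) (by linarith [hw1 (n + 1)])
  rw [hone, hww] at e3
  have e4 : b.f⁻¹ ((φ ^ n) m) = (φ ^ n) m := by rw [e3]; ring
  rw [Equiv.Perm.inv_eq_iff_eq, hcn] at e4
  exact hnf m (by rw [hm]; linarith) (by rw [hm]; linarith) ((φ ^ n).injective e4).symm

lemma fix_u {a b : E} (ha : PL a) (hb : PL b) (hc : Commute a.f b.f) {u v : ℝ} (huv : u < v)
    (hu : b.f u = u) (hnf : ∀ x : ℝ, u < x → x < v → b.f x ≠ x) : a.f u = u := by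
  have h1 := not_gt ha.1 ha.2.1 hb hc huv hu hnf
  have h2 := not_gt (inv_strictMono ha.1) (fun s hs => by
    rw [Equiv.Perm.inv_eq_iff_eq]; exact (ha.2.1 s hs).symm) hb hc.inv_left huv hu hnf
  push Not at h1 h2
  have h3 := ha.1.monotone h2
  have e : a.f (a.f⁻¹ u) = u := Equiv.apply_symm_apply a.f u
  rw [e] at h3
  exact le_antisymm h1 h3

lemma fix_v {a b : E} (ha : PL a) (hb : PL b) (hc : Commute a.f b.f) {u v : ℝ} (huv : u < v)
    (hu : b.f u = u) (hv : b.f v = v) (hnf : ∀ x : ℝ, u < x → x < v → b.f x ≠ x) : a.f v = v := by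
  have h0 := fix_u ha hb hc huv hu hnf
  have key : ∀ φ : Equiv.Perm ℝ, StrictMono φ → Commute φ b.f → φ u = u → v ≤ φ v := by
    intro φ h1 h2 h3
    by_contra hcon
    push Not at hcon
    have h4 : u < φ v := by
      have := h1 huv
      rwa [h3] at this
    apply hnf (φ v) h4 hcon
    rw [← comm_apply h2, hv]
  have h1 := key a.f ha.1 hc h0
  have h2 := key a.f⁻¹ (inv_strictMono ha.1) hc.inv_left (by rw [Equiv.Perm.inv_eq_iff_eq]; exact h0.symm)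
  have h3 := ha.1.monotone h2
  have e : a.f (a.f⁻¹ v) = v := Equiv.apply_symm_apply a.f v
  rw [e] at h3
  exact le_antisymm h3 h1

/-- Part DISJ. -/
theorem disj_thm : S_DISJ := by
  intro a₁ a₂ b h₁ h₂ hb hc₁ hc₂ s hs
  obtain ⟨u, v, hus, hsv, hu, hv, hnf⟩ := comp_exists hb.1 hb.2.1 hs
  have huv := hus.trans hsv
  have c₁ : Commute a₁.f b.f := hc₁
  have c₂ : Commute a₂.f b.f := hc₂
  have v₁ := fix_v h₁ hb c₁ huv hu hv hnf
  have v₂ := fix_v h₂ hb c₂ huv hu hv hnf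
  have w₁ : a₁.f⁻¹ v = v := by rw [Equiv.Perm.inv_eq_iff_eq]; exact v₁.symm
  have w₂ : a₂.f⁻¹ v = v := by rw [Equiv.Perm.inv_eq_iff_eq]; exact v₂.symm
  obtain ⟨-, l₁, -, -, hl₁⟩ := PL.local h₁ v
  obtain ⟨-, l₂, -, -, hl₂⟩ := PL.local h₂ v
  have k₁ : LS a₁.f v (-l₁) := by simpa using hl₁.inv w₁
  have k₂ : LS a₂.f v (-l₂) := by simpa using hl₂.inv w₂
  have hc : LS (a₁.f * a₂.f * a₁.f⁻¹ * a₂.f⁻¹ : Equiv.Perm ℝ) v 0 := by
    have h3 := LS.comp k₁ (LS.comp k₂ (LS.comp hl₁ hl₂ w₁ w₂) v₂ (by simp only [w₁, w₂])) v₁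
      (by simp only [w₁, w₂, v₂])
    have e : -l₁ + (-l₂ + (l₁ + l₂)) = 0 := by ring
    rw [e] at h3
    exact h3
  set c : Equiv.Perm ℝ := a₁.f * a₂.f * a₁.f⁻¹ * a₂.f⁻¹ with hcdef
  have hcv : c v = v := by
    simp only [hcdef, Equiv.Perm.mul_apply, w₁, w₂, v₁, v₂]
  have hcb : Commute c b.f := ((c₁.mul_left c₂).mul_left c₁.inv_left).mul_left c₂.inv_left
  obtain ⟨ε, hε, hid⟩ := hc
  have hid' : ∀ t, v - ε ≤ t → t ≤ v → c t = t := by
    intro t h1 h2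
    rw [hid t h1 h2, hcv]; simp
  -- move `s` towards `v`
  have key : ∀ φ : Equiv.Perm ℝ, StrictMono φ → Commute c φ → φ v = v → s < φ s →
      (∀ x : ℝ, u < x → x < v → φ x ≠ x) → c s = s := by
    intro φ p1 p2 p3 p4 p5
    obtain ⟨w, q1, q2, q3, q4, q5⟩ := orbit_sup p1 p4 hsv p3
    have hwv : w = v := by
      rcases lt_or_eq_of_le q2 with h | h
      · exact absurd q3 (p5 w (by linarith) h)
      · exact h
    subst hwv
    obtain ⟨n, hn⟩ := q5 ε hε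
    have e1 := hid' ((φ ^ n) s) hn.le (q4 n).le
    rw [comm_apply (p2.pow_right n)] at e1
    exact (φ ^ n).injective e1
  rcases lt_or_gt_of_ne hs with h | h
  · -- `b s < s`
    refine key b.f⁻¹ (inv_strictMono hb.1) hcb.inv_right ?_ ?_ ?_
    · rw [Equiv.Perm.inv_eq_iff_eq]; exact hv.symm
    · have := inv_strictMono hb.1 h
      have e : b.f⁻¹ (b.f s) = s := Equiv.symm_apply_apply b.f s
      rwa [e] at this
    · intro x h1 h2 h3
      rw [Equiv.Perm.inv_eq_iff_eq] at h3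
      exact hnf x h1 h2 h3.symm
  · exact key b.f hb.1 hcb hv h hnf

end Pool.Agent.Helper75.OL
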