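import Pool.Agent.Helper40.OL.Spec

/-!
# Blueprint OL: geometry of piecewise linear maps (helper lemmas for JUMP, COMM, DISJ)
-/

set_option autoImplicit false

namespace Pool.Agent.Helper75.OL

open Pool.Agent.Helper40.OL

/-- right exponent -/
def RS (φ : ℝ → ℝ) (s : ℝ) (ρ : ℤ) : Prop :=
  ∃ ε : ℝ, 0 < ε ∧ ∀ t : ℝ, s ≤ t → t ≤ s + ε → φ t = φ s + (2 : ℝ) ^ ρ * (t - s)

/-- left exponent -/
def LS (φ : ℝ → ℝ) (s : ℝ) (l : ℤ) : Prop :=
  ∃ ε : ℝ, 0 < ε ∧ ∀ t : ℝ, s - ε ≤ t → t ≤ s → φ t = φ s + (2 : ℝ) ^ l * (t - s)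

lemma zpow2_inj {m n : ℤ} (h : (2 : ℝ) ^ m = 2 ^ n) : m = n :=
  zpow_right_injective₀ (by norm_num) (by norm_num) h

lemma RS.unique {φ : ℝ → ℝ} {s : ℝ} {ρ ρ' : ℤ} (h : RS φ s ρ) (h' : RS φ s ρ') : ρ = ρ' := by
  obtain ⟨ε, hε, h⟩ := h
  obtain ⟨ε', hε', h'⟩ := h'
  have hm : 0 < min ε ε' := lt_min hε hε'
  have e1 := h (s + min ε ε') (by linarith) (by linarith [min_le_left ε ε'])
  have e2 := h' (s + min ε ε') (by linarith) (by linarith [min_le_right ε ε'])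
  rw [e1] at e2
  have e3 : (2 : ℝ) ^ ρ * (min ε ε') = 2 ^ ρ' * (min ε ε') := by
    have : s + min ε ε' - s = min ε ε' := by ring
    rw [this] at e2
    linarith
  exact zpow2_inj (mul_right_cancel₀ hm.ne' e3)

lemma LS.unique {φ : ℝ → ℝ} {s : ℝ} {ρ ρ' : ℤ} (h : LS φ s ρ) (h' : LS φ s ρ') : ρ = ρ' := by
  obtain ⟨ε, hε, h⟩ := h
  obtain ⟨ε', hε', h'⟩ := h'
  have hm : 0 < min ε ε' := lt_min hε hε'
  have e1 := h (s - min ε ε') (by linarith [min_le_left ε ε']) (by linarith)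
  have e2 := h' (s - min ε ε') (by linarith [min_le_right ε ε']) (by linarith)
  rw [e1] at e2
  have e3 : (2 : ℝ) ^ ρ * (min ε ε') = 2 ^ ρ' * (min ε ε') := by
    have : s - min ε ε' - s = - min ε ε' := by ring
    rw [this] at e2
    linarith
  exact zpow2_inj (mul_right_cancel₀ hm.ne' e3)

/-- propagation to the right: near `s` on the right the exponents are constant -/
lemma RS.prop {φ : ℝ → ℝ} {s : ℝ} {ρ : ℤ} (h : RS φ s ρ) :
    ∃ ε : ℝ, 0 < ε ∧ ∀ t, s < t → t < s + ε → RS φ t ρ ∧ LS φ t ρ := by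
  obtain ⟨ε, hε, h⟩ := h
  refine ⟨ε, hε, fun t h1 h2 => ⟨⟨s + ε - t, by linarith, fun x hx1 hx2 => ?_⟩,
    ⟨t - s, by linarith, fun x hx1 hx2 => ?_⟩⟩⟩
  · rw [h x (by linarith) (by linarith), h t h1.le h2.le]; ring
  · rw [h x (by linarith) (by linarith), h t h1.le h2.le]; ring

lemma LS.prop {φ : ℝ → ℝ} {s : ℝ} {ρ : ℤ} (h : LS φ s ρ) :
    ∃ ε : ℝ, 0 < ε ∧ ∀ t, s - ε < t → t < s → RS φ t ρ ∧ LS φ t ρ := by
  obtain ⟨ε, hε, h⟩ := h
  refine ⟨ε, hε, fun t h1 h2 => ⟨⟨s - t, by linarith, fun x hx1 hx2 => ?_⟩,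
    ⟨t - (s - ε), by linarith, fun x hx1 hx2 => ?_⟩⟩⟩
  · rw [h x (by linarith) (by linarith), h t h1.le h2.le]; ring
  · rw [h x (by linarith) (by linarith), h t h1.le h2.le]; ring

lemma PL.local {g : E} (hg : PL g) (s : ℝ) : ∃ ρ l : ℤ, g.d s = ρ - l ∧ RS (g.f⁻¹ : Equiv.Perm ℝ) s ρ ∧
    LS (g.f⁻¹ : Equiv.Perm ℝ) s l := by
  obtain ⟨ρ, l, h1, ε, hε, h2, h3⟩ := hg.2.2.2.2 s
  exact ⟨ρ, l, h1, ⟨ε, hε, h2⟩, ⟨ε, hε, h3⟩⟩

lemma inv_strictMono {φ : Equiv.Perm ℝ} (h : StrictMono φ) : StrictMono (φ⁻¹ : Equiv.Perm ℝ) := by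
  intro x y hxy
  by_contra hc
  push Not at hc
  have := h.monotone hc
  have e1 : φ (φ⁻¹ y) = y := Equiv.apply_symm_apply φ y
  have e2 : φ (φ⁻¹ x) = x := Equiv.apply_symm_apply φ x
  rw [e1, e2] at this
  linarith

lemma perm_continuous {φ : Equiv.Perm ℝ} (h : StrictMono φ) : Continuous φ :=
  h.monotone.continuous_of_surjective φ.surjective

lemma locconst (F : ℝ → ℤ) (a b : ℝ) (hab : a ≤ b)
    (H : ∀ x ∈ Set.Icc a b, ∃ ε : ℝ, 0 < ε ∧ ∀ y ∈ Set.Icc a b, |y - x| < ε → F y = F x) : F a = F b := by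
  have hc : ContinuousOn F (Set.Icc a b) := by
    intro x hx
    obtain ⟨ε, hε, h⟩ := H x hx
    have : ∀ᶠ y in nhdsWithin x (Set.Icc a b), F y = F x := by
      have h1 : ∀ᶠ y in nhdsWithin x (Set.Icc a b), y ∈ Metric.ball x ε :=
        nhdsWithin_le_nhds (Metric.ball_mem_nhds x hε)
      filter_upwards [h1, self_mem_nhdsWithin] with y hy hy'
      exact h y hy' (by rwa [Metric.mem_ball, Real.dist_eq] at hy)
    exact tendsto_const_nhds.congr' (this.mono fun y hy => hy.symm)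
  exact isPreconnected_Icc.constant hc ⟨le_refl _, hab⟩ ⟨hab, le_refl _⟩

/-- The component of the support containing a moved point. -/
lemma comp_exists {φ : Equiv.Perm ℝ} (h : StrictMono φ) (h' : ∀ s : ℝ, s ≤ 0 ∨ 1 ≤ s → φ s = s) {x : ℝ}
    (hx : φ x ≠ x) : ∃ u v : ℝ, u < x ∧ x < v ∧ φ u = u ∧ φ v = v ∧ ∀ y, u < y → y < v → φ y ≠ y := by
  have hcl : IsClosed {y : ℝ | φ y = y} := isClosed_eq (perm_continuous h) continuous_id
  have h1 : ({y : ℝ | φ y = y} ∩ Set.Iic x).Nonempty :=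
    ⟨min 0 x, h' _ (Or.inl (min_le_left _ _)), Set.mem_Iic.2 (min_le_right _ _)⟩
  have h2 : ({y : ℝ | φ y = y} ∩ Set.Ici x).Nonempty :=
    ⟨max 1 x, h' _ (Or.inr (le_max_left _ _)), Set.mem_Ici.2 (le_max_right _ _)⟩
  have hb1 : BddAbove ({y : ℝ | φ y = y} ∩ Set.Iic x) := ⟨x, fun y hy => hy.2⟩
  have hb2 : BddBelow ({y : ℝ | φ y = y} ∩ Set.Ici x) := ⟨x, fun y hy => hy.2⟩
  have m1 := (hcl.inter isClosed_Iic).csSup_mem h1 hb1
  have m2 := (hcl.inter isClosed_Ici).csInf_mem h2 hb2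
  refine ⟨_, _, lt_of_le_of_ne m1.2 ?_, lt_of_le_of_ne m2.2 ?_, m1.1, m2.1, ?_⟩
  · intro e
    have := m1.1
    rw [e] at this
    exact hx this
  · intro e
    have := m2.1
    rw [← e] at this
    exact hx this
  · intro y hy1 hy2 hy
    rcases le_total y x with hyx | hyx
    · exact absurd (le_csSup hb1 ⟨hy, hyx⟩) (not_le.mpr hy1)
    · exact absurd (csInf_le hb2 ⟨hy, hyx⟩) (not_le.mpr hy2)

/-- The supremum of an increasing orbit. -/
lemma orbit_sup {φ : Equiv.Perm ℝ} (h : StrictMono φ) {x v : ℝ} (hx : x < φ x) (hxv : x < v)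
    (hv : φ v = v) : ∃ w, x < w ∧ w ≤ v ∧ φ w = w ∧ (∀ n : ℕ, (φ ^ n) x < w) ∧
      ∀ δ : ℝ, 0 < δ → ∃ n : ℕ, w - δ < (φ ^ n) x := by
  have hpm : ∀ n : ℕ, StrictMono (φ ^ n) := by
    intro n
    induction n with
    | zero => intro a b hab; simpa using hab
    | succ n ih =>
      intro a b hab
      rw [pow_succ', Equiv.Perm.mul_apply, Equiv.Perm.mul_apply]
      exact h (ih hab)
  have hlt : ∀ n : ℕ, (φ ^ n) x < (φ ^ (n + 1)) x := by
    intro n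
    rw [pow_succ, Equiv.Perm.mul_apply]
    exact hpm n hx
  have hfix : ∀ n : ℕ, (φ ^ n) v = v := by
    intro n
    induction n with
    | zero => simp
    | succ n ih => rw [pow_succ, Equiv.Perm.mul_apply, hv, ih]
  have hub : ∀ n : ℕ, (φ ^ n) x < v := by
    intro n
    have := hpm n hxv
    rwa [hfix n] at this
  have hbdd : BddAbove (Set.range fun n : ℕ => (φ ^ n) x) :=
    ⟨v, by rintro _ ⟨n, rfl⟩; exact (hub n).le⟩
  have hmono : Monotone fun n : ℕ => (φ ^ n) x := monotone_nat_of_le_succ fun n => (hlt n).le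
  have hlim := tendsto_atTop_ciSup hmono hbdd
  set w : ℝ := ⨆ n : ℕ, (φ ^ n) x with hw
  have hw1 : ∀ n : ℕ, (φ ^ n) x < w := fun n => lt_of_lt_of_le (hlt n) (le_ciSup hbdd (n + 1))
  refine ⟨w, by simpa using hw1 0, ciSup_le fun n => (hub n).le, ?_, hw1, fun δ hδ => ?_⟩
  · have h1 : Filter.Tendsto (fun n : ℕ => (φ ^ (n + 1)) x) Filter.atTop (nhds w) :=
      (Filter.tendsto_add_atTop_iff_nat 1).2 hlim
    have h2 : Filter.Tendsto (fun n : ℕ => φ ((φ ^ n) x)) Filter.atTop (nhds (φ w)) :=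
      ((perm_continuous h).tendsto w).comp hlim
    have h3 : (fun n : ℕ => (φ ^ (n + 1)) x) = fun n : ℕ => φ ((φ ^ n) x) := by
      funext n
      rw [pow_succ', Equiv.Perm.mul_apply]
    rw [h3] at h1
    exact tendsto_nhds_unique h2 h1
  · exact exists_lt_of_lt_ciSup (by linarith : w - δ < w)

end Pool.Agent.Helper75.OL
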