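import Pool.Agent.Helper75.OL.Geo

/-!
# Blueprint OL: part JUMP
-/

set_option autoImplicit false

namespace Pool.Agent.Helper75.OL

open Pool.Agent.Helper40.OL

lemma inv_fix {φ : Equiv.Perm ℝ} {x : ℝ} (h : φ x = x) : φ⁻¹ x = x := by
  rw [Equiv.Perm.inv_eq_iff_eq]; exact h.symm

lemma fix_of_inv_fix {φ : Equiv.Perm ℝ} {x : ℝ} (h : φ⁻¹ x = x) : φ x = x := by
  rw [Equiv.Perm.inv_eq_iff_eq] at h; exact h.symm

lemma no_cross {φ : Equiv.Perm ℝ} (h : StrictMono φ) {u v a b : ℝ}
    (hnf : ∀ x : ℝ, u < x → x < v → φ x ≠ x) (ha : u < a) (hab : a ≤ b) (hb : b < v) :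
    ¬ (a < φ a ∧ φ b < b) ∧ ¬ (φ a < a ∧ b < φ b) := by
  have hc : ContinuousOn (fun t => φ t - t) (Set.Icc a b) :=
    ((perm_continuous h).sub continuous_id).continuousOn
  constructor
  · rintro ⟨h1, h2⟩
    obtain ⟨t, ht, ht'⟩ := intermediate_value_Icc' hab hc
      (show (0 : ℝ) ∈ Set.Icc (φ b - b) (φ a - a) from ⟨by linarith, by linarith⟩)
    exact hnf t (by linarith [ht.1]) (by linarith [ht.2]) (by
      have : φ t - t = 0 := ht'
      linarith)
  · rintro ⟨h1, h2⟩
    obtain ⟨t, ht, ht'⟩ := intermediate_value_Icc hab hc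
      (show (0 : ℝ) ∈ Set.Icc (φ a - a) (φ b - b) from ⟨by linarith, by linarith⟩)
    exact hnf t (by linarith [ht.1]) (by linarith [ht.2]) (by
      have : φ t - t = 0 := ht'
      linarith)

lemma exps_ne {φ : Equiv.Perm ℝ} (h : StrictMono φ) {u v : ℝ} (huv : u < v) (hu : φ u = u) (hv : φ v = v)
    (hnf : ∀ x : ℝ, u < x → x < v → φ x ≠ x) {ρ l : ℤ} (hR : RS φ u ρ) (hL : LS φ v l) : ρ ≠ l := by
  rintro rfl
  obtain ⟨ε, hε, h1⟩ := hR
  obtain ⟨ε', hε', h2⟩ := hL
  set δ := min (min ε ε') ((v - u) / 3) with hδ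
  have d1 : δ ≤ ε := (min_le_left _ _).trans (min_le_left _ _)
  have d2 : δ ≤ ε' := (min_le_left _ _).trans (min_le_right _ _)
  have d3 : δ ≤ (v - u) / 3 := min_le_right _ _
  have d0 : 0 < δ := lt_min (lt_min hε hε') (by linarith)
  have e1 := h1 (u + δ) (by linarith) (by linarith)
  have e2 := h2 (v - δ) (by linarith) (by linarith)
  rw [hu] at e1
  rw [hv] at e2
  have hn := no_cross h hnf (show u < u + δ by linarith) (show u + δ ≤ v - δ by linarith)
    (show v - δ < v by linarith)
  have e1' : φ (u + δ) = u + 2 ^ ρ * δ := by rw [e1]; ring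
  have e2' : φ (v - δ) = v - 2 ^ ρ * δ := by rw [e2]; ring
  rcases lt_trichotomy ρ 0 with hρ | hρ | hρ
  · have : (2 : ℝ) ^ ρ < 1 := zpow_lt_one_of_neg₀ (by norm_num) hρ
    have h3 : (2 : ℝ) ^ ρ * δ < δ := by nlinarith
    exact hn.2 ⟨by rw [e1']; linarith, by rw [e2']; linarith⟩
  · subst hρ
    apply hnf (u + δ) (by linarith) (by linarith)
    rw [e1']
    simp
  · have : (1 : ℝ) < 2 ^ ρ := one_lt_zpow₀ (by norm_num) hρ
    have h3 : δ < (2 : ℝ) ^ ρ * δ := by nlinarith
    exact hn.1 ⟨by rw [e1']; linarith, by rw [e2']; linarith⟩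

/-- Part JUMP. -/
theorem jump_thm : S_JUMP := by
  classical
  intro g hg u v huv hu hv hnf
  have hm := inv_strictMono hg.1
  have hnf' : ∀ x : ℝ, u < x → x < v → (g.f⁻¹ : Equiv.Perm ℝ) x ≠ x :=
    fun x h1 h2 h3 => hnf x h1 h2 (fix_of_inv_fix h3)
  choose ρ l hd hR hL using PL.local hg
  set D : Finset ℝ := hg.2.2.1.toFinset with hD
  have hDm : ∀ s, s ∈ D ↔ g.d s ≠ 0 := fun s => by simp [hD]
  have key : (fun x => ρ x - ∑ s ∈ D, if u < s ∧ s ≤ x then g.d s else 0) u =
      (fun x => ρ x - ∑ s ∈ D, if u < s ∧ s ≤ x then g.d s else 0) v := by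
    refine locconst (fun x => ρ x - ∑ s ∈ D, if u < s ∧ s ≤ x then g.d s else 0) u v huv.le ?_
    intro x hx
    obtain ⟨ε, hε, h1⟩ := (hR x).prop
    obtain ⟨ε', hε', h2⟩ := (hL x).prop
    refine ⟨min ε ε', lt_min hε hε', fun y hy hyx => ?_⟩
    have hy1 : |y - x| < ε := lt_of_lt_of_le hyx (min_le_left _ _)
    have hy2 : |y - x| < ε' := lt_of_lt_of_le hyx (min_le_right _ _)
    rw [abs_lt] at hy1 hy2
    have z1 : ∀ t, x < t → t < x + ε → ρ t = ρ x ∧ l t = ρ x := fun t ht1 ht2 =>
      ⟨(hR t).unique (h1 t ht1 ht2).1, (hL t).unique (h1 t ht1 ht2).2⟩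
    have z2 : ∀ t, x - ε' < t → t < x → ρ t = l x ∧ l t = l x := fun t ht1 ht2 =>
      ⟨(hR t).unique (h2 t ht1 ht2).1, (hL t).unique (h2 t ht1 ht2).2⟩
    rcases lt_trichotomy y x with hlt | heq | hgt
    · -- `y < x`
      have hux : u < x := lt_of_le_of_lt hy.1 hlt
      have e1 : (∑ s ∈ D, if u < s ∧ s ≤ x then g.d s else 0) -
          (∑ s ∈ D, if u < s ∧ s ≤ y then g.d s else 0) = g.d x := by
        rw [← Finset.sum_sub_distrib]
        have e2 : ∀ s ∈ D, ((if u < s ∧ s ≤ x then g.d s else 0) - if u < s ∧ s ≤ y then g.d s else 0) =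
            if s = x then g.d x else 0 := by
          intro s hs
          by_cases hsx : s = x
          · subst hsx
            rw [if_pos ⟨hux, le_refl _⟩, if_neg (by intro h; linarith [h.2]), if_pos rfl, sub_zero]
          · rw [if_neg hsx]
            by_cases hsy : s ≤ y
            · by_cases hus : u < s
              · rw [if_pos ⟨hus, by linarith⟩, if_pos ⟨hus, hsy⟩, sub_self]
              · rw [if_neg (fun h => hus h.1), if_neg (fun h => hus h.1), sub_self]
            · rw [if_neg (fun h : u < s ∧ s ≤ y => hsy h.2), sub_zero]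
              push Not at hsy
              by_cases hsx' : s < x
              · exfalso
                have := z2 s (by linarith) hsx'
                exact (hDm s).1 hs (by rw [hd s, this.1, this.2, sub_self])
              · rw [if_neg (fun h : u < s ∧ s ≤ x => hsx' (lt_of_le_of_ne h.2 hsx))]
        rw [Finset.sum_congr rfl e2, Finset.sum_ite_eq']
        by_cases hxD : x ∈ D
        · rw [if_pos hxD]
        · rw [if_neg hxD]
          by_contra hne
          exact hxD ((hDm x).2 (fun h => hne h.symm))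
      have e3 := (z2 y (by linarith) hlt).1
      have e4 := hd x
      show ρ y - _ = ρ x - _
      linarith
    · subst heq; rfl
    · -- `x < y`
      have e1 : (∑ s ∈ D, if u < s ∧ s ≤ y then g.d s else 0) =
          (∑ s ∈ D, if u < s ∧ s ≤ x then g.d s else 0) := by
        apply Finset.sum_congr rfl
        intro s hs
        by_cases hsx : s ≤ x
        · by_cases hus : u < s
          · have hsy : s ≤ y := by linarith
            rw [if_pos ⟨hus, hsy⟩, if_pos ⟨hus, hsx⟩]
          · rw [if_neg (fun h => hus h.1), if_neg (fun h => hus h.1)]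
        · rw [if_neg (fun h : u < s ∧ s ≤ x => hsx h.2)]
          push Not at hsx
          by_cases hsy : s ≤ y
          · exfalso
            have := z1 s hsx (by linarith)
            exact (hDm s).1 hs (by rw [hd s, this.1, this.2, sub_self])
          · rw [if_neg (fun h : u < s ∧ s ≤ y => hsy h.2)]
      have e3 := (z1 y hgt (by linarith)).1
      show ρ y - _ = ρ x - _
      rw [e1, e3]
  have hu0 : (∑ s ∈ D, if u < s ∧ s ≤ u then g.d s else 0) = 0 := by
    apply Finset.sum_eq_zero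
    intro s _
    rw [if_neg (by rintro ⟨h1, h2⟩; linarith)]
  have hv0 : (∑ s ∈ D, if u < s ∧ s ≤ v then g.d s else 0) = (∑ᶠ s ∈ Set.Ioo u v, g.d s) + g.d v := by
    have e1 : ∑ᶠ s ∈ Set.Ioo u v, g.d s = ∑ s ∈ D, if u < s ∧ s < v then g.d s else 0 := by
      rw [finsum_mem_def, finsum_eq_sum_of_support_subset (s := D)]
      · apply Finset.sum_congr rfl
        intro s _
        rw [Set.indicator_apply]
        rfl
      · intro s hs
        rw [Function.mem_support, Set.indicator_apply_ne_zero] at hs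
        exact Finset.mem_coe.2 ((hDm s).2 hs.2)
    have e2 : (∑ s ∈ D, if s = v then g.d v else 0) = g.d v := by
      rw [Finset.sum_ite_eq']
      by_cases hxD : v ∈ D
      · rw [if_pos hxD]
      · rw [if_neg hxD]
        by_contra hne
        exact hxD ((hDm v).2 (fun h => hne h.symm))
    rw [e1, ← e2, ← Finset.sum_add_distrib]
    apply Finset.sum_congr rfl
    intro s _
    by_cases hsv : s = v
    · subst hsv
      rw [if_pos ⟨huv, le_refl _⟩, if_neg (by rintro ⟨_, h⟩; exact lt_irrefl _ h), if_pos rfl, zero_add]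
    · rw [if_neg hsv, add_zero]
      by_cases h : u < s ∧ s ≤ v
      · rw [if_pos h, if_pos ⟨h.1, lt_of_le_of_ne h.2 hsv⟩]
      · rw [if_neg h, if_neg (fun h' => h ⟨h'.1, h'.2.le⟩)]
  intro hzero
  simp only at key
  rw [hu0, hv0, hzero, zero_add, sub_zero] at key
  have := hd v
  exact exps_ne hm huv (inv_fix hu) (inv_fix hv) hnf' (hR u) (hL v) (by linarith)

end Pool.Agent.Helper75.OL
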